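import Pool.Agent.TH136.DM.Final

set_option autoImplicit false
open scoped Pointwise

namespace Pool.Agent.Results.MP_dd2a7c_co.BoundedDilates

/-- Freiman-Ruzsa theorem with polynomial bounds for sets with many bounded dilates. Let `M` be a
vector space over a finite field `F`, `A` a finite nonempty subset of `M` with `|A+A| ≤ K|A|`, and
`Λ` a set of scalars, contained in no proper subfield of `F`, with `|F| ≤ |Λ|^(2^J)` and
`|A+xA| ≤ K|A|` for all `x ∈ Λ`. If `|F| > (3K)^(14·70^J)`, then `A` is covered by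
`(3K)^(2·70^J)` translates of a subspace with at most `(3K)^(6·70^J)|A|` elements, and by
`(3K)^(8·70^J)` translates of a centred convex coset progression of dimension one and volume at
most `|A|`. -/
theorem result {F M : Type*} [Field F] [Finite F] [AddCommGroup M] [Module F M]
    [d : DecidableEq M] (J : ℕ) (K : ℝ) (Λ : Finset F) (A : Finset M) (hA : A.Nonempty)
    (hgen : ∀ E : Subfield F, (∀ x ∈ Λ, x ∈ E) → E = ⊤)
    (hcard : Nat.card F ≤ Λ.card ^ 2 ^ J)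
    (hK : ((A + A).card : ℝ) ≤ K * A.card)
    (hΛ : ∀ x ∈ Λ, ((A + A.image fun a => x • a).card : ℝ) ≤ K * A.card)
    (hq : (3 * K) ^ (14 * 70 ^ J) + 1 ≤ Nat.card F) :
    (∃ (V : Submodule F M) (S : Finset M), Finite V ∧
      (Nat.card V : ℝ) ≤ (3 * K) ^ (6 * 70 ^ J) * A.card ∧
      (S.card : ℝ) ≤ (3 * K) ^ (2 * 70 ^ J) ∧ ∀ a ∈ A, ∃ s ∈ S, a - s ∈ V) ∧
    ∃ (B : Set (Fin 1 → ℝ)) (ψ : (Fin 1 → ℤ) →+ M) (H : AddSubgroup M) (T : Finset M),
      Convex ℝ B ∧ IsCompact B ∧ (interior B).Nonempty ∧ (∀ x ∈ B, -x ∈ B) ∧ Finite H ∧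
      {x : Fin 1 → ℤ | (fun i => (x i : ℝ)) ∈ B}.ncard * Nat.card H ≤ A.card ∧
      (T.card : ℝ) ≤ (3 * K) ^ (8 * 70 ^ J) ∧
      ∀ a ∈ A, ∃ t ∈ T, ∃ x : Fin 1 → ℤ, (fun i => (x i : ℝ)) ∈ B ∧
        ∃ h ∈ H, a = t + ψ x + h := by
  have hd : d = (fun a b => Classical.propDecidable (a = b)) := Subsingleton.elim _ _
  subst hd
  exact TH136.DM.field_official A hA K J Λ hgen hcard hK hΛ hq

end Pool.Agent.Results.MP_dd2a7c_co.BoundedDilates
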