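import Pool.Agent.TH388.CVX.Final

set_option autoImplicit false
open scoped Pointwise

namespace Pool.Agent.Results.MP_dd2a7c_co.ConvexSets

/-- Polynomial Freiman-Ruzsa for sets close to the lattice points of a convex set of arbitrary
dimension.  Let `P` be a convex subset of `ℝⁿ` (any `n`, not necessarily symmetric) with finitely
many integer points, `ψ : ℤⁿ → Γ` a homomorphism and `H` a finite subgroup such that
`(v, h) ↦ ψ v + h` is a Freiman isomorphism of order two on the integer points of `P` times `H`.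
If `|A + A| ≤ K |A|` and `A` is covered by `L` translates of the image of this progression, whose
volume is at most `L |A|`, then `A` is covered by `(2KL)^3100` translates of a centred convex coset
progression of dimension at most `480 log (2KL)` and volume at most `|A|`. -/
theorem result {Γ : Type*} [AddCommGroup Γ] [DecidableEq Γ] (K L : ℝ) (A : Finset Γ)
    (hA : A.Nonempty) (hK : ((A + A).card : ℝ) ≤ K * (A.card : ℝ))
    (n : ℕ) (P : Set (Fin n → ℝ)) (hP : Convex ℝ P)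
    (hPfin : {v : Fin n → ℤ | (fun i => (v i : ℝ)) ∈ P}.Finite)
    (ψ : (Fin n → ℤ) →+ Γ) (H : AddSubgroup Γ) (hH : Finite H) (hHA : Nat.card H ≤ A.card)
    (hproper : ∀ a b c d : Fin n → ℤ, (fun i => (a i : ℝ)) ∈ P → (fun i => (b i : ℝ)) ∈ P →
      (fun i => (c i : ℝ)) ∈ P → (fun i => (d i : ℝ)) ∈ P →
      ψ a + ψ b - ψ c - ψ d ∈ H → a + b = c + d)
    (hvol : ({v : Fin n → ℤ | (fun i => (v i : ℝ)) ∈ P}.ncard : ℝ) * (Nat.card H : ℝ) ≤
      L * (A.card : ℝ))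
    (X : Finset Γ) (hX : (X.card : ℝ) ≤ L)
    (hcov : ∀ a ∈ A, ∃ x ∈ X, ∃ v : Fin n → ℤ, (fun i => (v i : ℝ)) ∈ P ∧
      ∃ h ∈ H, a = x + ψ v + h) :
    ∃ (d : ℕ) (B : Set (Fin d → ℝ)) (φ : (Fin d → ℤ) →+ Γ) (T : Finset Γ),
      (d : ℝ) ≤ 480 * Real.log (2 * K * L) ∧
      Convex ℝ B ∧ IsCompact B ∧ (interior B).Nonempty ∧ (∀ x ∈ B, -x ∈ B) ∧
      {x : Fin d → ℤ | (fun i => (x i : ℝ)) ∈ B}.Finite ∧
      {x : Fin d → ℤ | (fun i => (x i : ℝ)) ∈ B}.ncard * Nat.card H ≤ A.card ∧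
      (T.card : ℝ) ≤ (2 * K * L) ^ 3100 ∧
      ∀ a ∈ A, ∃ t ∈ T, ∃ x : Fin d → ℤ, (fun i => (x i : ℝ)) ∈ B ∧
        ∃ h ∈ H, a = t + φ x + h := by
  have hdec : ‹DecidableEq Γ› = (fun a b => Classical.propDecidable (a = b)) :=
    Subsingleton.elim _ _
  subst hdec
  have hD : ∀ v : Fin n → ℤ, v ∈ hPfin.toFinset ↔ TH388.CVX.cst v ∈ P := by
    intro v
    rw [Set.Finite.mem_toFinset]
    exact Iff.rfl
  have hcard : {v : Fin n → ℤ | (fun i => (v i : ℝ)) ∈ P}.ncard = hPfin.toFinset.card :=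
    Set.ncard_eq_toFinset_card _ hPfin
  rw [hcard] at hvol
  obtain ⟨d, B, φ, T, h1, h2, h3, h4, h5, h6, h7, h8, h9⟩ :=
    TH388.CVX.main hA hK P hP hPfin.toFinset hD ψ H hHA
      (fun a b c d ha hb hc hd => hproper a b c d ((hD _).1 ha) ((hD _).1 hb) ((hD _).1 hc)
        ((hD _).1 hd)) hvol X hX
      (fun a ha => by
        obtain ⟨x, hx, v, hv, h, hh, he⟩ := hcov a ha
        exact ⟨x, hx, v, (hD v).2 hv, h, hh, he⟩)
  exact ⟨d, B, φ, T, h1, h2, h3, h4, h5, h6, h7, h8, h9⟩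

end Pool.Agent.Results.MP_dd2a7c_co.ConvexSets
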